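import Pool.Agent.H1.FU.SlideC
import Pool.Agent.H77.TU.Ident
import Pool.Agent.H45.AC.Adm

/-!
# Project FULL: the path of linear maps on the sequence space of length `m N`
-/

set_option autoImplicit false

open Topology

namespace Pool.Agent.H1.FU

open Pool.Agent.H47.ST (Iz fS zw eK shs shp QK Lc rl)
open Pool.Agent.H47.QG (Pt action flw oseq Gen ind hess)
open Pool.Agent.H10.TU (cpl Amf)
open Pool.Agent.H77.TU (cp ck fx fy fS_ck)

variable {n N : ℕ}

/-- the projector to the constant chunks -/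
def kap (n N : ℕ) [NeZero N] : (Fin N → Fin n → ℝ) →ₗ[ℝ] (Fin N → Fin n → ℝ) where
  toFun u := fun _ => u 0
  map_add' _ _ := rfl
  map_smul' _ _ := rfl

/-- the bilinear form of the coupling -/
noncomputable def brk (n N : ℕ) [NeZero N] :
    (Fin N → Fin n → ℝ) →ₗ[ℝ] (Fin N → Fin n → ℝ) →ₗ[ℝ] ℝ :=
  LinearMap.mk₂ ℝ (fun y x => ∑ k, ∑ a, y k a * (x (k + 1) a - x k a) + ∑ a, y 0 a * x 0 a)
    (fun y y' x => by
      simp only [Pi.add_apply, add_mul, Finset.sum_add_distrib]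
      ring)
    (fun c y x => by
      simp only [Pi.smul_apply, smul_eq_mul, mul_assoc, ← Finset.mul_sum]
      ring)
    (fun y x x' => by
      simp only [Pi.add_apply, mul_add, mul_sub, Finset.sum_add_distrib, Finset.sum_sub_distrib]
      ring)
    (fun c y x => by
      simp only [Pi.smul_apply, smul_eq_mul, mul_sub, Finset.sum_sub_distrib, Finset.mul_sum,
        mul_add, mul_left_comm])

theorem brk_apply [NeZero N] (y x : Fin N → Fin n → ℝ) :
    brk n N y x = ∑ k, ∑ a, y k a * (x (k + 1) a - x k a) + ∑ a, y 0 a * x 0 a := rfl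

theorem brk_Bk (n N : ℕ) [NeZero N] : Bk (brk n N) (kap n N) := by
  refine ⟨fun y x => ?_, fun x => rfl⟩
  rw [brk_apply, brk_apply]
  have h1 : ∑ k : Fin N, ∑ a : Fin n, y k a * ((kap n N x) (k + 1) a - (kap n N x) k a) = 0 := by
    refine Finset.sum_eq_zero fun k _ => Finset.sum_eq_zero fun a _ => ?_
    show y k a * (x 0 a - x 0 a) = 0
    rw [sub_self, mul_zero]
  have h2 : ∑ k : Fin N, ∑ a : Fin n, (kap n N y) k a * (x (k + 1) a - x k a) = 0 := by
    show ∑ k : Fin N, ∑ a : Fin n, y 0 a * (x (k + 1) a - x k a) = 0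
    rw [Finset.sum_comm]
    refine Finset.sum_eq_zero fun a _ => ?_
    have h3 : ∑ k : Fin N, x (k + 1) a = ∑ k : Fin N, x k a :=
      Equiv.sum_comp (Equiv.addRight (1 : Fin N)) (fun k => x k a)
    rw [← Finset.mul_sum, Finset.sum_sub_distrib, h3, sub_self, mul_zero]
  rw [h1, h2]
  rfl

/-- put together a chunk -/
def mg (x y : Fin N → Fin n → ℝ) : Iz n N → ℝ := fun b =>
  match b with
  | (k, Sum.inl a) => x k a
  | (k, Sum.inr a) => y k a

variable {m : ℕ}

/-- the chunks -/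
def pk (n m N : ℕ) [NeZero m] [NeZero N] : (Iz n (m * N) → ℝ) →ₗ[ℝ]
    (Fin m → Fin N → Fin n → ℝ) × (Fin m → Fin N → Fin n → ℝ) where
  toFun t := (fun i k a => t (cp n m N (i, (k, Sum.inl a))),
    fun i k a => t (cp n m N (i, (k, Sum.inr a))))
  map_add' _ _ := rfl
  map_smul' _ _ := rfl

/-- the sequence of the chunks -/
def pv (n m N : ℕ) [NeZero m] [NeZero N] :
    ((Fin m → Fin N → Fin n → ℝ) × (Fin m → Fin N → Fin n → ℝ)) →ₗ[ℝ] (Iz n (m * N) → ℝ) where
  toFun p := fun b => mg (p.1 ((cp n m N).symm b).1) (p.2 ((cp n m N).symm b).1)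
    ((cp n m N).symm b).2
  map_add' p q := by
    funext b
    show mg _ _ _ = mg _ _ _ + mg _ _ _
    generalize (cp n m N).symm b = q'
    obtain ⟨i, k, a | a⟩ := q' <;> rfl
  map_smul' c p := by
    funext b
    show mg _ _ _ = c * mg _ _ _
    generalize (cp n m N).symm b = q'
    obtain ⟨i, k, a | a⟩ := q' <;> rfl

section

variable [NeZero m] [NeZero N]

theorem ck_mg (t : Iz n (m * N) → ℝ) (i : Fin m) :
    ck n m N t i = mg ((pk n m N t).1 i) ((pk n m N t).2 i) := by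
  funext b
  obtain ⟨k, a | a⟩ := b <;> rfl

theorem pv_pk (t : Iz n (m * N) → ℝ) : pv n m N (pk n m N t) = t := by
  funext b
  have h : mg ((pk n m N t).1 ((cp n m N).symm b).1) ((pk n m N t).2 ((cp n m N).symm b).1)
      ((cp n m N).symm b).2 = t b := by
    rw [← ck_mg]
    show t (cp n m N ((cp n m N).symm b)) = t b
    rw [Equiv.apply_symm_apply]
  exact h

theorem pk_pv (p : (Fin m → Fin N → Fin n → ℝ) × (Fin m → Fin N → Fin n → ℝ)) :
    pk n m N (pv n m N p) = p := by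
  refine Prod.ext (funext fun i => funext fun k => funext fun a => ?_)
    (funext fun i => funext fun k => funext fun a => ?_)
  · show mg (p.1 ((cp n m N).symm (cp n m N (i, (k, Sum.inl a)))).1)
      (p.2 ((cp n m N).symm (cp n m N (i, (k, Sum.inl a)))).1)
      ((cp n m N).symm (cp n m N (i, (k, Sum.inl a)))).2 = _
    rw [Equiv.symm_apply_apply]
    rfl
  · show mg (p.1 ((cp n m N).symm (cp n m N (i, (k, Sum.inr a)))).1)
      (p.2 ((cp n m N).symm (cp n m N (i, (k, Sum.inr a)))).1)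
      ((cp n m N).symm (cp n m N (i, (k, Sum.inr a)))).2 = _
    rw [Equiv.symm_apply_apply]
    rfl

/-- the part of the action of one chunk which comes from the generating functions -/
noncomputable def Gk (S : ℕ → Pt n → ℝ) (N : ℕ) [NeZero N] (x y : Fin N → Fin n → ℝ) : ℝ :=
  QK n N (mg x y) - fS S N (mg x y)

theorem Gk_bound {S : ℕ → Pt n → ℝ} {B : ℝ} (hB : ∀ j z, |S j z| ≤ B)
    (x y : Fin N → Fin n → ℝ) : |Gk S N x y| ≤ N * B := by
  unfold Gk
  rw [Pool.Agent.H47.ST.ActZ_split, sub_sub_cancel]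
  refine (Finset.abs_sum_le_sum_abs _ _).trans ?_
  refine (Finset.sum_le_card_nsmul _ _ B fun j _ => hB _ _).trans ?_
  rw [Finset.card_univ, Fintype.card_fin, nsmul_eq_mul]

theorem QK_Amf [NeZero (m * N)] (t : Iz n (m * N) → ℝ) :
    QK n (m * N) t = Amf (QK n N) (fx n N) (fy n N) (ck n m N t) := by
  have h1 := fS_ck (n := n) (m := m) (N := N) (S := fun _ _ => 0) (fun _ => rfl) t
  have h2 : ∀ (K : ℕ) [NeZero K] (y : Iz n K → ℝ), fS (fun _ _ => 0) K y = QK n K y := by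
    intro K _ y
    rw [Pool.Agent.H47.ST.ActZ_split]
    simp
  rw [h2] at h1
  rw [h1]
  unfold Amf
  simp only [h2]

theorem QK_pk [NeZero (m * N)] (t : Iz n (m * N) → ℝ) :
    QK n (m * N) t = Qs (brk n N) (kap n N) m (pk n m N t) := by
  rw [QK_Amf]
  unfold Amf cpl Qs
  rw [← Finset.sum_add_distrib]
  refine Finset.sum_congr rfl fun i _ => ?_
  rw [map_sub, brk_apply, brk_apply]
  have h1 : ∑ k : Fin N, ∑ a : Fin n, (pk n m N t).2 i k a *
      ((kap n N ((pk n m N t).1 (i - 1))) (k + 1) a -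
        (kap n N ((pk n m N t).1 (i - 1))) k a) = 0 := by
    refine Finset.sum_eq_zero fun k _ => Finset.sum_eq_zero fun a _ => ?_
    show _ * ((pk n m N t).1 (i - 1) 0 a - (pk n m N t).1 (i - 1) 0 a) = 0
    rw [sub_self, mul_zero]
  rw [h1, zero_add]
  have h2 : ∑ a : Fin n, fy n N (ck n m N t i) a *
      (fx n N (ck n m N t i) a - fx n N (ck n m N t (i - 1)) a) =
      ∑ a : Fin n, (pk n m N t).2 i 0 a * (pk n m N t).1 i 0 a -
        ∑ a : Fin n, (pk n m N t).2 i 0 a * (kap n N ((pk n m N t).1 (i - 1))) 0 a := by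
    rw [← Finset.sum_sub_distrib]
    refine Finset.sum_congr rfl fun a _ => ?_
    rw [← mul_sub]
    rfl
  rw [h2, add_sub_assoc]
  rfl

theorem fS_pk [NeZero (m * N)] {S : ℕ → Pt n → ℝ} (hper : ∀ j, S (j + N) = S j)
    (t : Iz n (m * N) → ℝ) :
    fS S (m * N) t = QK n (m * N) t - SG (Gk S N) m (pk n m N t) := by
  rw [fS_ck hper, QK_Amf]
  unfold Amf SG Gk
  have h : ∀ i, QK n N (mg ((pk n m N t).1 i) ((pk n m N t).2 i)) -
      fS S N (mg ((pk n m N t).1 i) ((pk n m N t).2 i)) =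
      QK n N (ck n m N t i) - fS S N (ck n m N t i) := fun i => by rw [ck_mg]
  simp only [h, Finset.sum_sub_distrib]
  ring

theorem fp_add [NeZero (m * N)] (i : Fin m) (k : Fin N) :
    (finProdFinEquiv (i, k) + Fin.ofNat (m * N) N : Fin (m * N)) = finProdFinEquiv (i + 1, k) := by
  apply Fin.ext
  have hN : 0 < N := Nat.pos_of_neZero N
  have hk := k.isLt
  have h1 : ((i + 1 : Fin m) : ℕ) = ((i : ℕ) + 1) % m := by
    have h2 : ((1 : Fin m) : ℕ) = 1 % m := rfl
    rw [Fin.val_add, h2, Nat.add_mod_mod]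
  have h2 : ((finProdFinEquiv (i + 1, k) : Fin (m * N)) : ℕ) = k + N * ((i + 1 : Fin m) : ℕ) := rfl
  rw [h2, h1, Fin.val_add]
  have h3 : ((finProdFinEquiv (i, k) : Fin (m * N)) : ℕ) = k + N * i := rfl
  have h4 : ((Fin.ofNat (m * N) N : Fin (m * N)) : ℕ) = N % (m * N) := rfl
  rw [h3, h4, Nat.add_mod_mod, Nat.mul_comm m N, Nat.mod_mul,
    show (k : ℕ) + N * i + N = k + N * ((i : ℕ) + 1) by ring, Nat.add_mul_mod_self_left,
    Nat.mod_eq_of_lt hk, Nat.add_mul_div_left _ _ hN, Nat.div_eq_of_lt hk, zero_add]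

theorem shp_cp [NeZero (m * N)] (i : Fin m) (b : Iz n N) :
    shp n m N (cp n m N (i, b)) = cp n m N (i + 1, b) := by
  obtain ⟨k, a | a⟩ := b
  · by_cases hk : k = 0
    · subst hk
      rw [Pool.Agent.H77.TU.cp_inl_zero, Pool.Agent.H77.TU.cp_inl_zero]
      show (finProdFinEquiv (i + 1, 0) + Fin.ofNat (m * N) N, Sum.inl a) = _
      rw [fp_add]
    · rw [Pool.Agent.H77.TU.cp_inl _ hk, Pool.Agent.H77.TU.cp_inl _ hk]
      show (finProdFinEquiv (i, k) + Fin.ofNat (m * N) N, Sum.inl a) = _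
      rw [fp_add]
  · rw [Pool.Agent.H77.TU.cp_inr, Pool.Agent.H77.TU.cp_inr]
    show (finProdFinEquiv (i, k) + Fin.ofNat (m * N) N, Sum.inr a) = _
    rw [fp_add]

theorem pv_shift [NeZero (m * N)] (t : Iz n (m * N) → ℝ) :
    pv n m N (fun j => (pk n m N t).1 (j + 1), fun j => (pk n m N t).2 (j + 1)) =
      t ∘ shp n m N := by
  funext b
  have h : mg ((pk n m N t).1 (((cp n m N).symm b).1 + 1))
      ((pk n m N t).2 (((cp n m N).symm b).1 + 1)) ((cp n m N).symm b).2 = t (shp n m N b) := by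
    rw [← ck_mg]
    show t (cp n m N (((cp n m N).symm b).1 + 1, ((cp n m N).symm b).2)) = _
    rw [← shp_cp, Prod.mk.eta, Equiv.apply_symm_apply]
  exact h

theorem pk_rl {l : Iz n (m * N) → ℤ} (hl : l ∈ Lc n (m * N)) :
    ∃ u v : Fin N → Fin n → ℝ, kap n N u = u ∧ kap n N v = v ∧
      pk n m N (rl l) = (fun _ => u, fun _ => v) := by
  obtain ⟨c, hc⟩ := hl
  refine ⟨fun _ a => c (Sum.inl a), fun _ a => c (Sum.inr a), rfl, rfl, ?_⟩
  refine Prod.ext (funext fun i => funext fun k => funext fun a => ?_)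
    (funext fun i => funext fun k => funext fun a => ?_)
  · show ((l (cp n m N (i, (k, Sum.inl a))) : ℤ) : ℝ) = (c (Sum.inl a) : ℝ)
    congr 1
    exact hc _ _
  · show ((l (cp n m N (i, (k, Sum.inr a))) : ℤ) : ℝ) = (c (Sum.inr a) : ℝ)
    congr 1
    exact hc _ _

end

/-- **The path from the identity to the shift by `N` steps.** -/
theorem slide_path {S : ℕ → Pt n → ℝ} {B : ℝ} (hB : ∀ j z, |S j z| ≤ B) [NeZero N]
    (hper : ∀ j, S (j + N) = S j) (m : ℕ) (hm : Odd m) [NeZero (m * N)] :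
    ∃ M : ℝ → ((Iz n (m * N) → ℝ) →L[ℝ] (Iz n (m * N) → ℝ)), Continuous M ∧
      (∀ y, M 0 y = y) ∧ (∀ y, M 1 y = y ∘ shp n m N) ∧
      ∀ t, (∀ y, QK n (m * N) (M t y) = QK n (m * N) y) ∧
        (∀ l ∈ Lc n (m * N), ∀ y, M t (y + rl l) = M t y + rl l) ∧
        ∀ y, |fS S (m * N) (M t y) - fS S (m * N) y| ≤ 4 * (N * B) := by
  have hB0 : 0 ≤ B := (abs_nonneg _).trans (hB 0 0)
  by_cases h1 : m = 1
  · subst h1
    have hsh : ∀ y : Iz n (1 * N) → ℝ, y ∘ shp n 1 N = y := by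
      intro y
      have h2 := pv_shift (n := n) (m := 1) (N := N) y
      rw [← h2]
      have h3 : ∀ j : Fin 1, j + 1 = j := fun j => Subsingleton.elim _ _
      simp only [h3]
      exact pv_pk y
    refine ⟨fun _ => ContinuousLinearMap.id ℝ _, continuous_const, fun _ => rfl,
      fun y => (hsh y).symm, fun t => ⟨fun _ => rfl, fun _ _ _ => rfl, fun y => ?_⟩⟩
    show |fS S (1 * N) y - fS S (1 * N) y| ≤ _
    rw [sub_self, abs_zero]
    positivity
  · obtain ⟨m', rfl⟩ : ∃ m', m = m' + 3 := by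
      obtain ⟨a, ha⟩ := hm
      exact ⟨m - 3, by omega⟩
    obtain ⟨M, hMc, hM0, hM1, hM⟩ := slide_abs (brk_Bk n N) m' hm (Gk S N)
      (fun x y => Gk_bound hB x y)
    have hg : ∀ t y, (((pv n (m' + 3) N).toContinuousLinearMap.comp
        ((M t).comp (pk n (m' + 3) N).toContinuousLinearMap)) :
        (Iz n ((m' + 3) * N) → ℝ) →L[ℝ] (Iz n ((m' + 3) * N) → ℝ)) y =
          pv n (m' + 3) N (M t (pk n (m' + 3) N y)) := fun t y => rfl
    refine ⟨fun t => (pv n (m' + 3) N).toContinuousLinearMap.comp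
        ((M t).comp (pk n (m' + 3) N).toContinuousLinearMap), ?_, fun y => ?_, fun y => ?_,
        fun t => ⟨fun y => ?_, fun l hl y => ?_, fun y => ?_⟩⟩
    · rw [continuous_clm_apply]
      intro y
      exact (pv n (m' + 3) N).toContinuousLinearMap.continuous.comp
        (hMc.clm_apply continuous_const)
    · rw [hg, hM0, pv_pk]
    · rw [hg, hM1, pv_shift]
    · rw [hg, QK_pk, pk_pv, (hM t).1, ← QK_pk]
    · obtain ⟨u, v, hu, hv, huv⟩ := pk_rl hl
      rw [hg, hg, map_add, map_add, huv, (hM t).2.1 u v hu hv, ← huv, map_add, pv_pk]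
    · have h2 := (hM t).2.2 (pk n (m' + 3) N y)
      rw [hg, fS_pk hper, fS_pk hper y, QK_pk, pk_pv, (hM t).1, ← QK_pk]
      have e : QK n ((m' + 3) * N) y - SG (Gk S N) (m' + 3) (M t (pk n (m' + 3) N y)) -
          (QK n ((m' + 3) * N) y - SG (Gk S N) (m' + 3) (pk n (m' + 3) N y)) =
          -(SG (Gk S N) (m' + 3) (M t (pk n (m' + 3) N y)) -
            SG (Gk S N) (m' + 3) (pk n (m' + 3) N y)) := by ring
      rw [e, abs_neg]
      exact h2

/-- the path in the form of the phase slip lemma -/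
theorem slides_raw (n : ℕ) {S : ℕ → Pt n → ℝ} {N : ℕ} [NeZero N] (hper : ∀ j, S (j + N) = S j)
    {s : ℝ} (hs : ∀ j z, |S j z| ≤ s) (m K : ℕ) [NeZero K] (hK : K = m * N) (hm : Odd m) :
    ∃ P : ℝ → ((Iz n K → ℝ) →L[ℝ] (Iz n K → ℝ)), Continuous P ∧ (∀ y, P 0 y = y) ∧
      (∀ y, P 1 y = y ∘ Pool.Agent.H45.AC.shG n K N) ∧
      (∀ t, ∀ l ∈ Lc n K, P t (rl l) = rl l) ∧ (∀ t y, QK n K (P t y) = QK n K y) ∧
      ∀ t y, |fS S K (P t y) - fS S K y| ≤ 4 * N * s := by
  subst hK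
  obtain ⟨M, h1, h2, h3, h4⟩ := slide_path hs hper m hm
  refine ⟨M, h1, h2, h3, fun t l hl => ?_, fun t y => (h4 t).1 y, fun t y => ?_⟩
  · have h5 := (h4 t).2.1 l hl 0
    rwa [map_zero, zero_add] at h5
  · have h5 := (h4 t).2.2 y
    rwa [← mul_assoc] at h5

end Pool.Agent.H1.FU
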