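import Mathlib

/-!
# Project FULL: the slide of a chunk past its neighbour (algebra)
-/

set_option autoImplicit false

namespace Pool.Agent.H1.FU

variable {U : Type*} [AddCommGroup U] [Module ℝ U]

/-- the bilinear form of the coupling and the projector to the constant chunks -/
structure Bk (br : U →ₗ[ℝ] U →ₗ[ℝ] ℝ) (κ : U →ₗ[ℝ] U) : Prop where
  sym : ∀ y x, br y (κ x) = br (κ y) x
  idem : ∀ x, κ (κ x) = κ x

/-- the quadratic form of a cyclic sequence of chunks -/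
def Qs (br : U →ₗ[ℝ] U →ₗ[ℝ] ℝ) (κ : U →ₗ[ℝ] U) (m : ℕ) [NeZero m]
    (p : (Fin m → U) × (Fin m → U)) : ℝ :=
  ∑ i, br (p.2 i) (p.1 i - κ (p.1 (i - 1)))

/-- the new relative coordinates of the `x` part -/
def Pm (κ : U →ₗ[ℝ] U) (θ c s : ℝ) (α ξ : U) : U × U :=
  (c • (α - θ • κ ξ) + s • ξ, c • ξ - s • (α - θ • κ ξ))

/-- the new relative coordinates of the `y` part -/
def Qm (κ : U →ₗ[ℝ] U) (θ c s : ℝ) (β η : U) : U × U :=
  (c • β + s • (η + θ • κ β), c • (η + θ • κ β) - s • β)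

/-- the slide of the chunk `i` past the chunk `i + 1` -/
def sl (κ : U →ₗ[ℝ] U) (m : ℕ) [NeZero m] (i : Fin m) (θ c s : ℝ)
    (p : (Fin m → U) × (Fin m → U)) : (Fin m → U) × (Fin m → U) :=
  (fun j => if j = i then κ (p.1 (i - 1)) +
      (Pm κ θ c s (p.1 i - κ (p.1 (i - 1))) (p.1 (i + 1) - κ (p.1 (i - 1)))).1
    else if j = i + 1 then κ (p.1 (i - 1)) +
      (Pm κ θ c s (p.1 i - κ (p.1 (i - 1))) (p.1 (i + 1) - κ (p.1 (i - 1)))).2
    else p.1 j,
   fun j => if j = i then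
      (Qm κ θ c s (p.2 i - κ (p.2 (i + 1))) (p.2 (i + 1) - κ (p.2 (i + 1 + 1)))).1 +
      κ (κ (p.2 (i + 1 + 1)) +
        (Qm κ θ c s (p.2 i - κ (p.2 (i + 1))) (p.2 (i + 1) - κ (p.2 (i + 1 + 1)))).2)
    else if j = i + 1 then κ (p.2 (i + 1 + 1)) +
        (Qm κ θ c s (p.2 i - κ (p.2 (i + 1))) (p.2 (i + 1) - κ (p.2 (i + 1 + 1)))).2
    else p.2 j)

theorem pm_qm {br : U →ₗ[ℝ] U →ₗ[ℝ] ℝ} {κ : U →ₗ[ℝ] U} (h : Bk br κ) (θ : ℝ) {c s : ℝ}
    (hcs : c ^ 2 + s ^ 2 = 1) (α ξ β η : U) :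
    br (Qm κ θ c s β η).1 (Pm κ θ c s α ξ).1 + br (Qm κ θ c s β η).2 (Pm κ θ c s α ξ).2 =
      br β α + br η ξ := by
  have h1 := h.sym β ξ
  have h2 : br (κ β) (κ ξ) = br (κ β) ξ := by rw [h.sym, h.idem]
  unfold Pm Qm
  simp only [map_add, map_sub, map_smul, LinearMap.add_apply, LinearMap.sub_apply,
    LinearMap.smul_apply, smul_eq_mul]
  rw [h2, h1]
  linear_combination (br β α + br η ξ) * hcs

section fin

variable {m : ℕ} (i : Fin (m + 3))

theorem fin_a : i - 1 ≠ i := by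
  intro h
  have := congrArg Fin.val h
  have h1 := i.isLt
  rw [Fin.sub_def] at this
  simp only [Fin.val_one] at this
  rcases Nat.eq_zero_or_pos (i : ℕ) with h0 | h0
  · rw [h0] at this
    rw [Nat.mod_eq_of_lt (by omega)] at this
    omega
  · rw [show m + 3 - 1 + (i : ℕ) = (i - 1 : ℕ) + (m + 3) by omega, Nat.add_mod_right,
      Nat.mod_eq_of_lt (by omega)] at this
    omega

theorem fin_one_ne : (1 : Fin (m + 3)) ≠ 0 := by
  intro h
  have := congrArg Fin.val h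
  simp at this

theorem fin_two_ne : (1 + 1 : Fin (m + 3)) ≠ 0 := by
  intro h
  have := congrArg Fin.val h
  rw [Fin.val_add, Fin.val_one, Fin.val_zero, Nat.mod_eq_of_lt (by omega)] at this
  omega

theorem fin_b : i + 1 ≠ i := by
  intro h
  exact fin_one_ne (add_eq_left.1 h)

theorem fin_c : i + 1 + 1 ≠ i := by
  intro h
  rw [add_assoc] at h
  exact fin_two_ne (add_eq_left.1 h)

theorem fin_d : i + 1 + 1 ≠ i + 1 := by
  intro h
  exact fin_one_ne (add_eq_left.1 h)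

theorem fin_e : i - 1 ≠ i + 1 := by
  intro h
  rw [sub_eq_iff_eq_add, add_assoc] at h
  exact fin_two_ne (left_eq_add.1 h)

end fin

/-- **The slide preserves the quadratic form.** -/
theorem Qs_sl {br : U →ₗ[ℝ] U →ₗ[ℝ] ℝ} {κ : U →ₗ[ℝ] U} (h : Bk br κ) (m : ℕ) (i : Fin (m + 3))
    (θ : ℝ) {c s : ℝ} (hcs : c ^ 2 + s ^ 2 = 1)
    (p : (Fin (m + 3) → U) × (Fin (m + 3) → U)) :
    Qs br κ (m + 3) (sl κ (m + 3) i θ c s p) = Qs br κ (m + 3) p := by
  classical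
  unfold Qs
  rw [← sub_eq_zero, ← Finset.sum_sub_distrib]
  have h3 : ∀ j ∉ ({i, i + 1, i + 1 + 1} : Finset (Fin (m + 3))),
      br ((sl κ (m + 3) i θ c s p).2 j) ((sl κ (m + 3) i θ c s p).1 j -
        κ ((sl κ (m + 3) i θ c s p).1 (j - 1))) - br (p.2 j) (p.1 j - κ (p.1 (j - 1))) = 0 := by
    intro j hj
    simp only [Finset.mem_insert, Finset.mem_singleton, not_or] at hj
    obtain ⟨h1, h2, h3⟩ := hj
    have h4 : j - 1 ≠ i := fun h => h2 (by rw [← h, sub_add_cancel])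
    have h5 : j - 1 ≠ i + 1 := fun h => h3 (by rw [← h, sub_add_cancel])
    unfold sl
    simp only [if_neg h1, if_neg h2, if_neg h4, if_neg h5, sub_self]
  rw [← Finset.sum_subset (Finset.subset_univ ({i, i + 1, i + 1 + 1} : Finset (Fin (m + 3))))
    (fun j _ hj => h3 j hj)]
  rw [Finset.sum_insert (by
    simp only [Finset.mem_insert, Finset.mem_singleton, not_or]
    exact ⟨(fin_b i).symm, (fin_c i).symm⟩), Finset.sum_insert (by
    simp only [Finset.mem_singleton]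
    exact (fin_d i).symm), Finset.sum_singleton]
  have e1 : i + 1 - 1 = i := add_sub_cancel_right _ _
  have e2 : i + 1 + 1 - 1 = i + 1 := add_sub_cancel_right _ _
  rw [e1, e2]
  have key := pm_qm h θ hcs (p.1 i - κ (p.1 (i - 1))) (p.1 (i + 1) - κ (p.1 (i - 1)))
    (p.2 i - κ (p.2 (i + 1))) (p.2 (i + 1) - κ (p.2 (i + 1 + 1)))
  unfold sl
  simp only [if_true, if_neg (fin_a i), if_neg (fin_b i), if_neg (fin_c i), if_neg (fin_d i),
    if_neg (fin_e i)]
  revert key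
  generalize (Pm κ θ c s (p.1 i - κ (p.1 (i - 1))) (p.1 (i + 1) - κ (p.1 (i - 1)))) = A
  generalize (Qm κ θ c s (p.2 i - κ (p.2 (i + 1))) (p.2 (i + 1) - κ (p.2 (i + 1 + 1)))) = B
  intro key
  simp only [map_add, map_sub, LinearMap.add_apply, LinearMap.sub_apply, h.sym, h.idem] at key ⊢
  linear_combination key

end Pool.Agent.H1.FU
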