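import Pool.Agent.H1.FU.SlideA

/-!
# Project FULL: the sequence of slides which ends with the cyclic shift
-/

set_option autoImplicit false

namespace Pool.Agent.H1.FU

variable {U : Type*} [AddCommGroup U] [Module ℝ U]

/-- the slide at time `t` -/
noncomputable def sf (κ : U →ₗ[ℝ] U) (m : ℕ) [NeZero m] (i : Fin m) (t : ℝ)
    (p : (Fin m → U) × (Fin m → U)) : (Fin m → U) × (Fin m → U) :=
  sl κ m i t (Real.cos (t * (Real.pi / 2))) (Real.sin (t * (Real.pi / 2))) p

theorem sf_Qs {br : U →ₗ[ℝ] U →ₗ[ℝ] ℝ} {κ : U →ₗ[ℝ] U} (h : Bk br κ) (m : ℕ) (i : Fin (m + 3))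
    (t : ℝ) (p : (Fin (m + 3) → U) × (Fin (m + 3) → U)) :
    Qs br κ (m + 3) (sf κ (m + 3) i t p) = Qs br κ (m + 3) p :=
  Qs_sl h m i t (by rw [add_comm]; exact Real.sin_sq_add_cos_sq _) p

theorem sf_of_ne (κ : U →ₗ[ℝ] U) (m : ℕ) [NeZero m] {i j : Fin m} (h1 : j ≠ i) (h2 : j ≠ i + 1)
    (t : ℝ) (p : (Fin m → U) × (Fin m → U)) :
    (sf κ m i t p).1 j = p.1 j ∧ (sf κ m i t p).2 j = p.2 j := by
  unfold sf sl
  simp only [if_neg h1, if_neg h2, and_self]

theorem sf_zero (κ : U →ₗ[ℝ] U) (m : ℕ) (i : Fin (m + 3))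
    (p : (Fin (m + 3) → U) × (Fin (m + 3) → U)) : sf κ (m + 3) i 0 p = p := by
  refine Prod.ext (funext fun j => ?_) (funext fun j => ?_)
  · by_cases h1 : j = i
    · subst h1
      unfold sf sl Pm
      simp
    · by_cases h2 : j = i + 1
      · subst h2
        unfold sf sl Pm
        simp [fin_b i]
      · exact (sf_of_ne κ _ h1 h2 0 p).1
  · by_cases h1 : j = i
    · subst h1
      unfold sf sl Qm
      simp
    · by_cases h2 : j = i + 1
      · subst h2
        unfold sf sl Qm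
        simp [fin_b i]
      · exact (sf_of_ne κ _ h1 h2 0 p).2

theorem sf_one {br : U →ₗ[ℝ] U →ₗ[ℝ] ℝ} {κ : U →ₗ[ℝ] U} (h : Bk br κ) (m : ℕ) (i : Fin (m + 3))
    (p : (Fin (m + 3) → U) × (Fin (m + 3) → U)) :
    (sf κ (m + 3) i 1 p).1 i = p.1 (i + 1) ∧ (sf κ (m + 3) i 1 p).2 i = p.2 (i + 1) ∧
    (sf κ (m + 3) i 1 p).1 (i + 1) = κ (p.1 (i + 1)) - (p.1 i - κ (p.1 (i - 1))) ∧
    (sf κ (m + 3) i 1 p).2 (i + 1) = κ (p.2 (i + 1 + 1)) - (p.2 i - κ (p.2 (i + 1))) := by
  have hc : Real.cos (1 * (Real.pi / 2)) = 0 := by rw [one_mul, Real.cos_pi_div_two]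
  have hs : Real.sin (1 * (Real.pi / 2)) = 1 := by rw [one_mul, Real.sin_pi_div_two]
  unfold sf
  rw [hc, hs]
  unfold sl Pm Qm
  refine ⟨?_, ?_, ?_, ?_⟩
  · simp
  · simp only [if_true, zero_smul, one_smul, zero_add, map_add, map_sub, h.idem, zero_sub, map_neg,
      neg_sub]
    abel
  · simp only [if_true, if_neg (fin_b i), zero_smul, one_smul, zero_add, map_add, map_sub, h.idem,
      zero_sub, neg_sub]
    abel
  · simp only [if_true, if_neg (fin_b i), zero_smul, one_smul, zero_add, map_add, map_sub, h.idem,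
      zero_sub, neg_sub]
    abel

/-- the position number `i` -/
def ix (m i : ℕ) : Fin (m + 3) := Fin.ofNat (m + 3) i

theorem ix_val {m i : ℕ} (hi : i < m + 3) : ((ix m i : Fin (m + 3)) : ℕ) = i :=
  Nat.mod_eq_of_lt hi

theorem ix_zero (m : ℕ) : ix m 0 = 0 := rfl

theorem ix_succ {m i : ℕ} (hi : i + 1 < m + 3) : ix m (i + 1) = ix m i + 1 := by
  apply Fin.ext
  rw [ix_val hi, Fin.val_add, ix_val (by omega), Fin.val_one, Nat.mod_eq_of_lt hi]

/-- the result of the first `i` slides -/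
noncomputable def Gi (κ : U →ₗ[ℝ] U) (m : ℕ) :
    ℕ → (Fin (m + 3) → U) × (Fin (m + 3) → U) → (Fin (m + 3) → U) × (Fin (m + 3) → U)
  | 0 => fun p => p
  | i + 1 => fun p => sf κ (m + 3) (ix m i) 1 (Gi κ m i p)

/-- the state after `i` slides -/
theorem Gi_state {br : U →ₗ[ℝ] U →ₗ[ℝ] ℝ} {κ : U →ₗ[ℝ] U} (h : Bk br κ) (m : ℕ)
    (p : (Fin (m + 3) → U) × (Fin (m + 3) → U)) : ∀ i : ℕ, i < m + 3 →
    (∀ j : Fin (m + 3), j ≠ ix m i →
      (Gi κ m i p).1 j = p.1 (Fin.cycleRange (ix m i) j) ∧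
      (Gi κ m i p).2 j = p.2 (Fin.cycleRange (ix m i) j)) ∧
    (Gi κ m i p).1 (ix m i) - κ ((Gi κ m i p).1 (ix m i - 1)) =
      (-1 : ℝ) ^ i • (p.1 0 - κ (p.1 (0 - 1))) ∧
    (Gi κ m i p).2 (ix m i) - κ ((Gi κ m i p).2 (ix m i + 1)) =
      (-1 : ℝ) ^ i • (p.2 0 - κ (p.2 (0 + 1))) := by
  intro i
  induction i with
  | zero =>
    intro _
    refine ⟨fun j hj => ?_, ?_, ?_⟩
    · rw [ix_zero] at hj ⊢
      rw [Fin.cycleRange_of_gt (Fin.pos_iff_ne_zero.2 hj)]
      exact ⟨rfl, rfl⟩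
    · rw [ix_zero, pow_zero, one_smul]
      rfl
    · rw [ix_zero, pow_zero, one_smul]
      rfl
  | succ i ih =>
    intro hi
    obtain ⟨h1, h2, h3⟩ := ih (by omega)
    have hc : ix m (i + 1) = ix m i + 1 := ix_succ hi
    have hIv : (ix m i : ℕ) = i := ix_val (by omega)
    have hI1 : ((ix m i + 1 : Fin (m + 3)) : ℕ) = i + 1 := by rw [← hc]; exact ix_val hi
    have hG : Gi κ m (i + 1) p = sf κ (m + 3) (ix m i) 1 (Gi κ m i p) := rfl
    rw [hc, hG]
    generalize hI : ix m i = I at *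
    obtain ⟨e1, e2, e3, e4⟩ := sf_one h m I (Gi κ m i p)
    have hlt : I < I + 1 := by rw [Fin.lt_def, hIv, hI1]; omega
    refine ⟨fun j hj => ?_, ?_, ?_⟩
    · by_cases hji : j = I
      · rw [hji, e1, e2, Fin.cycleRange_of_lt hlt]
        have h4 := h1 (I + 1) (fin_b I)
        rw [Fin.cycleRange_of_gt hlt] at h4
        exact h4
      · have h4 := sf_of_ne κ (m + 3) hji hj 1 (Gi κ m i p)
        rw [h4.1, h4.2]
        have h5 := h1 j hji
        rcases lt_or_gt_of_ne hji with h6 | h6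
        · rw [Fin.cycleRange_of_lt h6] at h5
          rw [Fin.cycleRange_of_lt (h6.trans hlt)]
          exact h5
        · have h7 : I + 1 < j := by
            rw [Fin.lt_def] at h6 ⊢
            rw [hI1]
            rw [hIv] at h6
            rcases Nat.lt_or_ge (i + 1) (j : ℕ) with h8 | h8
            · exact h8
            · exfalso
              apply hj
              apply Fin.ext
              rw [hI1]; omega
          rw [Fin.cycleRange_of_gt h6] at h5
          rw [Fin.cycleRange_of_gt h7]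
          exact h5
    · rw [e3, add_sub_cancel_right, e1, sub_sub_cancel_left, h2, pow_succ, mul_neg_one, neg_smul]
    · rw [e4]
      have h4 := sf_of_ne κ (m + 3) (fin_c I) (fin_d I) 1 (Gi κ m i p)
      rw [h4.2, sub_sub_cancel_left, h3, pow_succ, mul_neg_one, neg_smul]

/-- **After `m - 1` slides, `m` odd, the sequence is shifted.** -/
theorem Gi_last {br : U →ₗ[ℝ] U →ₗ[ℝ] ℝ} {κ : U →ₗ[ℝ] U} (h : Bk br κ) (m : ℕ)
    (hm : Odd (m + 3)) (p : (Fin (m + 3) → U) × (Fin (m + 3) → U)) :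
    Gi κ m (m + 2) p = (fun j => p.1 (j + 1), fun j => p.2 (j + 1)) := by
  obtain ⟨h1, h2, h3⟩ := Gi_state h m p (m + 2) (by omega)
  have hIv : (ix m (m + 2) : ℕ) = m + 2 := ix_val (by omega)
  generalize hI : ix m (m + 2) = I at *
  have hI0 : I + 1 = 0 := by
    apply Fin.ext
    rw [Fin.val_add, hIv, Fin.val_one, Fin.val_zero, show m + 2 + 1 = m + 3 by omega, Nat.mod_self]
  have hI1 : I - 1 < I := by
    rw [Fin.lt_def, Fin.val_sub, Fin.val_one, hIv,
      show m + 3 - 1 + (m + 2) = (m + 1) + (m + 3) by omega, Nat.add_mod_right,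
      Nat.mod_eq_of_lt (by omega)]
    omega
  have h01 : (0 : Fin (m + 3)) - 1 = I := by rw [← hI0, add_sub_cancel_right]
  have hpow : (-1 : ℝ) ^ (m + 2) = 1 := by
    have : Even (m + 2) := by
      obtain ⟨a, ha⟩ := hm
      exact ⟨a, by omega⟩
    exact this.neg_one_pow
  have hlt : ∀ j : Fin (m + 3), j ≠ I → j < I := by
    intro j hj
    rw [Fin.lt_def, hIv]
    have h4 := j.isLt
    have h5 : (j : ℕ) ≠ m + 2 := fun h6 => hj (Fin.ext (by rw [hIv, h6]))
    omega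
  refine Prod.ext (funext fun j => ?_) (funext fun j => ?_)
  · by_cases hj : j = I
    · rw [hj]
      have h4 := (h1 (I - 1) (fin_a I)).1
      rw [Fin.cycleRange_of_lt hI1, sub_add_cancel] at h4
      rw [h4, hpow, one_smul, h01] at h2
      show (Gi κ m (m + 2) p).1 I = p.1 (I + 1)
      rw [hI0]
      exact sub_left_injective h2
    · have h4 := (h1 j hj).1
      rw [Fin.cycleRange_of_lt (hlt j hj)] at h4
      exact h4
  · by_cases hj : j = I
    · rw [hj]
      have h4 := (h1 (I + 1) (fin_b I)).2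
      rw [Fin.cycleRange_of_lt (hlt _ (fin_b I)), hI0] at h4
      rw [hI0, h4, hpow, one_smul] at h3
      show (Gi κ m (m + 2) p).2 I = p.2 (I + 1)
      rw [hI0]
      exact sub_left_injective h3
    · have h4 := (h1 j hj).2
      rw [Fin.cycleRange_of_lt (hlt j hj)] at h4
      exact h4

end Pool.Agent.H1.FU
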