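import Pool.Agent.H1.FU.SlideB

/-!
# Project FULL: the path of linear maps from the identity to the cyclic shift
-/

set_option autoImplicit false

open Topology

namespace Pool.Agent.H1.FU

section lin

variable {U : Type*} [AddCommGroup U] [Module ℝ U]

theorem sl_add (κ : U →ₗ[ℝ] U) (m : ℕ) [NeZero m] (i : Fin m) (θ c s : ℝ)
    (p q : (Fin m → U) × (Fin m → U)) :
    sl κ m i θ c s (p + q) = sl κ m i θ c s p + sl κ m i θ c s q := by
  refine Prod.ext (funext fun j => ?_) (funext fun j => ?_)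
  · simp only [sl, Pm, Prod.fst_add, Pi.add_apply, map_add, map_sub, map_smul]
    split_ifs <;> module
  · simp only [sl, Qm, Prod.snd_add, Pi.add_apply, map_add, map_sub, map_smul]
    split_ifs <;> module

theorem sl_smul (κ : U →ₗ[ℝ] U) (m : ℕ) [NeZero m] (i : Fin m) (θ c s : ℝ) (a : ℝ)
    (p : (Fin m → U) × (Fin m → U)) :
    sl κ m i θ c s (a • p) = a • sl κ m i θ c s p := by
  refine Prod.ext (funext fun j => ?_) (funext fun j => ?_)
  · simp only [sl, Pm, Prod.smul_fst, Pi.smul_apply, map_add, map_sub, map_smul]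
    split_ifs <;> module
  · simp only [sl, Qm, Prod.smul_snd, Pi.smul_apply, map_add, map_sub, map_smul]
    split_ifs <;> module

/-- the slide as a linear map -/
noncomputable def sfL (κ : U →ₗ[ℝ] U) (m : ℕ) [NeZero m] (i : Fin m) (t : ℝ) :
    ((Fin m → U) × (Fin m → U)) →ₗ[ℝ] (Fin m → U) × (Fin m → U) where
  toFun := sf κ m i t
  map_add' := sl_add κ m i _ _ _
  map_smul' := sl_smul κ m i _ _ _

/-- constant sequences of constant chunks are fixed -/
theorem sf_const (κ : U →ₗ[ℝ] U) (m : ℕ) [NeZero m] (i : Fin m) (t : ℝ) {u v : U} (hu : κ u = u)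
    (hv : κ v = v) : sf κ m i t (fun _ => u, fun _ => v) = (fun _ => u, fun _ => v) := by
  refine Prod.ext (funext fun j => ?_) (funext fun j => ?_)
  · simp only [sf, sl, Pm, hu, sub_self, map_zero, smul_zero, add_zero, sub_zero]
    split_ifs <;> rfl
  · simp only [sf, sl, Qm, hv, sub_self, map_zero, smul_zero, add_zero, sub_zero, zero_add]
    split_ifs <;> rfl

/-- the sum of a function of the chunks -/
def SG (G : U → U → ℝ) (m : ℕ) (p : (Fin m → U) × (Fin m → U)) : ℝ := ∑ i, G (p.1 i) (p.2 i)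

/-- **Only two chunks change.** -/
theorem SG_bound {br : U →ₗ[ℝ] U →ₗ[ℝ] ℝ} {κ : U →ₗ[ℝ] U} (h : Bk br κ) (m : ℕ)
    (G : U → U → ℝ) {c : ℝ} (hG : ∀ x y, |G x y| ≤ c) {i : ℕ} (hi : i < m + 2) (t : ℝ)
    (p : (Fin (m + 3) → U) × (Fin (m + 3) → U)) :
    |SG G (m + 3) (sf κ (m + 3) (ix m i) t (Gi κ m i p)) - SG G (m + 3) p| ≤ 4 * c := by
  classical
  obtain ⟨h1, -, -⟩ := Gi_state h m p i (by omega)
  set I := ix m i with hI
  set q := sf κ (m + 3) I t (Gi κ m i p) with hq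
  have e1 : SG G (m + 3) p = ∑ j, G (p.1 (Fin.cycleRange I j)) (p.2 (Fin.cycleRange I j)) :=
    (Equiv.sum_comp (Fin.cycleRange I) fun j => G (p.1 j) (p.2 j)).symm
  rw [e1]
  unfold SG
  rw [← Finset.sum_sub_distrib]
  have h3 : ∀ j ∉ ({I, I + 1} : Finset (Fin (m + 3))),
      G (q.1 j) (q.2 j) - G (p.1 (Fin.cycleRange I j)) (p.2 (Fin.cycleRange I j)) = 0 := by
    intro j hj
    simp only [Finset.mem_insert, Finset.mem_singleton, not_or] at hj
    have h4 := sf_of_ne κ (m + 3) hj.1 hj.2 t (Gi κ m i p)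
    rw [← hq] at h4
    have h5 := h1 j hj.1
    rw [h4.1, h4.2, h5.1, h5.2, sub_self]
  rw [← Finset.sum_subset (Finset.subset_univ ({I, I + 1} : Finset (Fin (m + 3))))
    (fun j _ hj => h3 j hj)]
  rw [Finset.sum_insert (by
    simp only [Finset.mem_singleton]
    exact (fin_b I).symm), Finset.sum_singleton]
  have b1 := abs_le.1 (hG (q.1 I) (q.2 I))
  have b2 := abs_le.1 (hG (p.1 (Fin.cycleRange I I)) (p.2 (Fin.cycleRange I I)))
  have b3 := abs_le.1 (hG (q.1 (I + 1)) (q.2 (I + 1)))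
  have b4 := abs_le.1 (hG (p.1 (Fin.cycleRange I (I + 1))) (p.2 (Fin.cycleRange I (I + 1))))
  rw [abs_le]
  constructor <;> linarith [b1.1, b1.2, b2.1, b2.2, b3.1, b3.2, b4.1, b4.2]

end lin

section top

variable {U : Type*} [NormedAddCommGroup U] [NormedSpace ℝ U] [FiniteDimensional ℝ U]

/-- the good maps -/
def Good (br : U →ₗ[ℝ] U →ₗ[ℝ] ℝ) (κ : U →ₗ[ℝ] U) (m : ℕ) (G : U → U → ℝ) (c : ℝ) :
    Set (((Fin (m + 3) → U) × (Fin (m + 3) → U)) →L[ℝ] (Fin (m + 3) → U) × (Fin (m + 3) → U)) :=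
  {g | (∀ p, Qs br κ (m + 3) (g p) = Qs br κ (m + 3) p) ∧
    (∀ u v : U, κ u = u → κ v = v → g (fun _ => u, fun _ => v) = (fun _ => u, fun _ => v)) ∧
    ∀ p, |SG G (m + 3) (g p) - SG G (m + 3) p| ≤ 4 * c}

/-- the slide as a continuous linear map -/
noncomputable def sfC (κ : U →ₗ[ℝ] U) (m : ℕ) [NeZero m] (i : Fin m) (t : ℝ) :
    ((Fin m → U) × (Fin m → U)) →L[ℝ] (Fin m → U) × (Fin m → U) :=
  LinearMap.toContinuousLinearMap (sfL κ m i t)

theorem sfC_apply (κ : U →ₗ[ℝ] U) (m : ℕ) [NeZero m] (i : Fin m) (t : ℝ)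
    (p : (Fin m → U) × (Fin m → U)) : sfC κ m i t p = sf κ m i t p := rfl

/-- the first `i` slides -/
noncomputable def gC (κ : U →ₗ[ℝ] U) (m : ℕ) :
    ℕ → (((Fin (m + 3) → U) × (Fin (m + 3) → U)) →L[ℝ] (Fin (m + 3) → U) × (Fin (m + 3) → U))
  | 0 => ContinuousLinearMap.id ℝ _
  | i + 1 => (sfC κ (m + 3) (ix m i) 1).comp (gC κ m i)

theorem gC_apply (κ : U →ₗ[ℝ] U) (m i : ℕ) (p : (Fin (m + 3) → U) × (Fin (m + 3) → U)) :
    gC κ m i p = Gi κ m i p := by
  induction i with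
  | zero => rfl
  | succ i ih =>
    show sfC κ (m + 3) (ix m i) 1 (gC κ m i p) = sf κ (m + 3) (ix m i) 1 (Gi κ m i p)
    rw [ih]; rfl

theorem gC_const (κ : U →ₗ[ℝ] U) (m i : ℕ) {u v : U} (hu : κ u = u) (hv : κ v = v) :
    gC κ m i (fun _ => u, fun _ => v) = (fun _ => u, fun _ => v) := by
  induction i with
  | zero => rfl
  | succ i ih =>
    show sfC κ (m + 3) (ix m i) 1 (gC κ m i (fun _ => u, fun _ => v)) = _
    rw [ih, sfC_apply, sf_const κ (m + 3) _ 1 hu hv]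

theorem gC_Qs {br : U →ₗ[ℝ] U →ₗ[ℝ] ℝ} {κ : U →ₗ[ℝ] U} (h : Bk br κ) (m i : ℕ)
    (p : (Fin (m + 3) → U) × (Fin (m + 3) → U)) :
    Qs br κ (m + 3) (gC κ m i p) = Qs br κ (m + 3) p := by
  induction i with
  | zero => rfl
  | succ i ih =>
    show Qs br κ (m + 3) (sfC κ (m + 3) (ix m i) 1 (gC κ m i p)) = _
    rw [sfC_apply, sf_Qs h, ih]

theorem sf_continuous (κ : U →ₗ[ℝ] U) (m : ℕ) [NeZero m] (i : Fin m)
    (p : (Fin m → U) × (Fin m → U)) : Continuous fun t => sf κ m i t p := by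
  have hκ : Continuous κ := κ.continuous_of_finiteDimensional
  refine Continuous.prodMk (continuous_pi fun j => ?_) (continuous_pi fun j => ?_)
  · unfold Pm
    split_ifs
    · fun_prop
    · fun_prop
    · exact continuous_const
  · unfold Qm
    split_ifs
    · refine Continuous.add (by fun_prop) (hκ.comp (by fun_prop))
    · fun_prop
    · exact continuous_const

theorem joined_step {br : U →ₗ[ℝ] U →ₗ[ℝ] ℝ} {κ : U →ₗ[ℝ] U} (h : Bk br κ) (m : ℕ)
    (G : U → U → ℝ) {c : ℝ} (hG : ∀ x y, |G x y| ≤ c) {i : ℕ} (hi : i < m + 2) :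
    JoinedIn (Good br κ m G c) (gC κ m i) (gC κ m (i + 1)) := by
  refine JoinedIn.ofLine (f := fun t => (sfC κ (m + 3) (ix m i) t).comp (gC κ m i)) ?_ ?_ rfl ?_
  · refine Continuous.continuousOn ?_
    rw [continuous_clm_apply]
    intro p
    exact sf_continuous κ (m + 3) (ix m i) (gC κ m i p)
  · refine ContinuousLinearMap.ext fun p => ?_
    exact sf_zero κ m (ix m i) (gC κ m i p)
  · rintro _ ⟨t, -, rfl⟩
    refine ⟨fun p => ?_, fun u v hu hv => ?_, fun p => ?_⟩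
    · show Qs br κ (m + 3) (sf κ (m + 3) (ix m i) t (gC κ m i p)) = _
      rw [sf_Qs h, gC_Qs h]
    · show sf κ (m + 3) (ix m i) t (gC κ m i (fun _ => u, fun _ => v)) = _
      rw [gC_const κ m i hu hv, sf_const κ (m + 3) _ t hu hv]
    · show |SG G (m + 3) (sf κ (m + 3) (ix m i) t (gC κ m i p)) - SG G (m + 3) p| ≤ 4 * c
      rw [gC_apply]
      exact SG_bound h m G hG hi t p

theorem joined_all {br : U →ₗ[ℝ] U →ₗ[ℝ] ℝ} {κ : U →ₗ[ℝ] U} (h : Bk br κ) (m : ℕ)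
    (G : U → U → ℝ) {c : ℝ} (hG : ∀ x y, |G x y| ≤ c) : ∀ i : ℕ, i ≤ m + 2 →
    JoinedIn (Good br κ m G c) (gC κ m 0) (gC κ m i) := by
  have hc : 0 ≤ c := (abs_nonneg _).trans (hG 0 0)
  intro i
  induction i with
  | zero =>
    intro _
    refine JoinedIn.refl ⟨fun _ => rfl, fun _ _ _ _ => rfl, fun p => ?_⟩
    show |SG G (m + 3) p - SG G (m + 3) p| ≤ 4 * c
    rw [sub_self, abs_zero]
    positivity
  | succ i ih =>
    intro hi
    exact (ih (by omega)).trans (joined_step h m G hG (by omega))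

/-- **The path from the identity to the shift.** -/
theorem slide_abs {br : U →ₗ[ℝ] U →ₗ[ℝ] ℝ} {κ : U →ₗ[ℝ] U} (h : Bk br κ) (m : ℕ)
    (hm : Odd (m + 3)) (G : U → U → ℝ) {c : ℝ} (hG : ∀ x y, |G x y| ≤ c) :
    ∃ M : ℝ → (((Fin (m + 3) → U) × (Fin (m + 3) → U)) →L[ℝ]
        (Fin (m + 3) → U) × (Fin (m + 3) → U)), Continuous M ∧
      (∀ p, M 0 p = p) ∧ (∀ p, M 1 p = (fun j => p.1 (j + 1), fun j => p.2 (j + 1))) ∧
      ∀ t, M t ∈ Good br κ m G c := by
  have hj := joined_all h m G hG (m + 2) le_rfl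
  set γ := hj.somePath with hγ
  refine ⟨γ.extend, γ.continuous_extend, fun p => ?_, fun p => ?_, fun t => ?_⟩
  · rw [γ.extend_zero]; rfl
  · rw [γ.extend_one, gC_apply, Gi_last h m hm p]
  · exact hj.somePath_mem _

end top

end Pool.Agent.H1.FU
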